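import Pool.Agent.Lib.MP_a1a06b_an.LZ.ZZ
import Pool.Agent.Lib.MP_a1a06b_an.LZ.NCa
import Pool.Agent.Lib.MP_a1a06b_an.LZ.NCb

/-!
# Quotient groups of Banach spaces isomorphic to groups of measurable functions

For every Banach space `E` whose dual contains a seminormalized sequence `f n` with
`sup ‖∑_{n ∈ F} ± f n‖ = o(|F|)`, for example for every `E` with a non-compact operator into some `ℓ_p`,
`p < ∞`, there is a closed subgroup `H` of `(E, +)` such that `E ⧸ H` is topologically isomorphic to the group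
`L¹([0,1]; M)` (which is the group of all measurable functions with the topology of convergence in measure) for
a nontrivial complete separable bounded normed group `M`.
-/

open MeasureTheory
open scoped ENNReal

universe u

namespace Pool.Agent.Results.MP_a1a06b_an.MeasurableQuotient

/-- The norms of the continuous functionals `f n` are bounded below, and for every `ε > 0` there is `K` such
that `‖∑_{n ∈ F} σ n f n‖ ≤ ε |F|` for all finite sets `F` of at least `K` indices and all real `σ n` with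
`|σ n| ≤ 1`. -/
def UniformlyCesaroNull {E : Type u} [NormedAddCommGroup E] [NormedSpace ℝ E]
    (f : ℕ → E →L[ℝ] ℝ) : Prop :=
  (∃ c : ℝ, 0 < c ∧ ∀ n, c ≤ ‖f n‖) ∧
    ∀ ε : ℝ, 0 < ε → ∃ K : ℕ, ∀ F : Finset ℕ, K ≤ F.card → ∀ σ : ℕ → ℝ,
      (∀ n, |σ n| ≤ 1) → ‖∑ n ∈ F, σ n • f n‖ ≤ ε * F.card

/-- There is a bounded linear operator from `E` to `F` which is not compact. -/
def HasNoncompact (E : Type u) [NormedAddCommGroup E] [NormedSpace ℝ E] (F : Type)
    [NormedAddCommGroup F] [NormedSpace ℝ F] : Prop :=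
  ∃ T : E →L[ℝ] F, ¬ IsCompactOperator T

/-- `M` is nontrivial, complete and separable, with bounded norm. -/
def IsTarget (M : Type) [NormedAddCommGroup M] : Prop :=
  Nontrivial M ∧ CompleteSpace M ∧ TopologicalSpace.SeparableSpace M ∧ ∃ C : ℝ, ∀ x : M, ‖x‖ ≤ C

/-- The group `L¹([0,1]; M)` contains the classes of all strongly measurable functions from `[0,1]` to `M`. -/
def ContainsAll (M : Type) [NormedAddCommGroup M] : Prop :=
  ∀ g : unitInterval →ₘ[volume] M, g ∈ Lp M 1 (volume : Measure unitInterval)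

/-- The topological groups `E ⧸ H` and `L¹([0,1]; M)` are isomorphic. -/
def IsoMeasurable {E : Type u} [NormedAddCommGroup E] (H : AddSubgroup E) (M : Type)
    [NormedAddCommGroup M] : Prop :=
  Nonempty ((E ⧸ H) ≃ₜ+ Lp M 1 (volume : Measure unitInterval))

/-- Let `E` be a real Banach space such that (a) there are continuous functionals `f n` on `E` with
`inf ‖f n‖ > 0` such that for every `ε > 0` there is `K` with `‖∑_{n ∈ F} σ n f n‖ ≤ ε |F|` for all finite
sets `F` of at least `K` indices and all `|σ n| ≤ 1`, or (b) there is a bounded operator from `E` into `ℓ_p`,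
`1 ≤ p < ∞`, which is not compact. Then there are a closed subgroup `H` of `(E, +)` and a complete separable
nontrivial normed abelian group `M` with bounded norm such that the quotient group `E ⧸ H` is topologically
isomorphic to the group `L¹([0,1]; M)`, which consists of the classes of all (strongly) measurable functions
from `[0,1]` to `M`; moreover `E ⧸ H` is contractible. -/
theorem result (E : Type u) [NormedAddCommGroup E] [NormedSpace ℝ E] [CompleteSpace E]
    (hE : (∃ f : ℕ → E →L[ℝ] ℝ, UniformlyCesaroNull f) ∨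
      ∃ (p : ℝ≥0∞) (_ : Fact (1 ≤ p)), p ≠ ∞ ∧ HasNoncompact E (lp (fun _ : ℕ => ℝ) p)) :
    ∃ H : AddSubgroup E, IsClosed (H : Set E) ∧ ContractibleSpace (E ⧸ H) ∧
      ∃ (M : Type) (_ : NormedAddCommGroup M), IsTarget M ∧ ContainsAll M ∧
        IsoMeasurable H M := by
  have key : ∀ f : ℕ → E →L[ℝ] ℝ, (∃ c : ℝ, 0 < c ∧ ∀ n, c ≤ ‖f n‖) →
      Pool.Agent.Lib.MP_a1a06b_an.LZ.UCes f →
      ∃ H : AddSubgroup E, IsClosed (H : Set E) ∧ ContractibleSpace (E ⧸ H) ∧
      ∃ (M : Type) (_ : NormedAddCommGroup M), IsTarget M ∧ ContainsAll M ∧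
        IsoMeasurable H M := by
    rintro f ⟨c, hc, hf⟩ h
    obtain ⟨H, hH, M, hM, h1, h2, h3, ⟨C, hC⟩, h5, h6⟩ :=
      Pool.Agent.Lib.MP_a1a06b_an.LZ.final f c hc hf h
    refine ⟨H, hH, h6, M, hM, ⟨h3, h1, h2, C, hC⟩, fun g => ?_, h5⟩
    rw [Lp.mem_Lp_iff_memLp]
    exact MemLp.of_bound g.aestronglyMeasurable C (Filter.Eventually.of_forall fun s => hC _)
  rcases hE with ⟨f, hc, hf⟩ | ⟨p, hp1, hp, T, hT⟩
  · exact key f hc hf
  · obtain ⟨f, c, hc, hf, hb⟩ := Pool.Agent.Lib.MP_a1a06b_an.LZ.exists_blocks hp T hT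
    refine key f ⟨c, hc, hf⟩ ?_
    have hq : 1 ≤ p.toReal := by
      have := (ENNReal.toReal_le_toReal ENNReal.one_ne_top hp).2 hp1.out
      simpa using this
    exact Pool.Agent.Lib.MP_a1a06b_an.LZ.uces_of_blocks p.toReal hq ‖T‖ f hb (norm_nonneg _)

end Pool.Agent.Results.MP_a1a06b_an.MeasurableQuotient
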