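import Pool.Agent.Lib.MP_a1a06b_an.Lines

/-!
# Quotient groups of Banach spaces without small one-parameter subgroups
-/

open Topology Metric TopologicalSpace

namespace Pool.Agent.Results.MP_a1a06b_an.NoSmallLines

universe u

/-- Let `E` be a real Banach space and `H` a closed subgroup of `(E, +)` such that `E ⧸ H` is separable
and not locally compact and some neighbourhood of `0` in `E ⧸ H` contains no nontrivial one-parameter
subgroup. Then `H` contains a closed linear subspace `V` of `E` such that `E ⧸ V` is separable and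
infinite-dimensional. -/
theorem result (E : Type u) [NormedAddCommGroup E] [NormedSpace ℝ E] [CompleteSpace E]
    (H : AddSubgroup E) (hH : IsClosed (H : Set E)) [SeparableSpace (E ⧸ H)]
    (hlc : ¬ LocallyCompactSpace (E ⧸ H)) (U : Set (E ⧸ H)) (hU : U ∈ 𝓝 (0 : E ⧸ H))
    (hg : ∀ g : ℝ →+ E ⧸ H, Continuous g → (∀ t, g t ∈ U) → ∀ t, g t = 0) :
    ∃ V : Submodule ℝ E, IsClosed (V : Set E) ∧ (∀ v ∈ V, v ∈ H) ∧ SeparableSpace (E ⧸ V) ∧
      ¬ FiniteDimensional ℝ (E ⧸ V) := by
  obtain ⟨E₀, hcl, hsep, happ⟩ := Lib.MP_a1a06b_an.Lines.exists_subspace H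
  have hdec := Lib.MP_a1a06b_an.Lines.exact_decomposition H E₀ hcl happ
  have hT : T1Space (E ⧸ H) := inferInstance
  have hT' : T1Space (Multiplicative (E ⧸ H)) := hT
  obtain ⟨V, hVcl, hV, -, hVsep⟩ := Lib.MP_a1a06b_an.Lines.hom_part H E₀ hsep hdec (Multiplicative (E ⧸ H))
    (AddMonoidHom.toMultiplicative (QuotientAddGroup.mk' H : E →+ E ⧸ H) :
      Multiplicative E →* Multiplicative (E ⧸ H))
    (by
      have hc : Continuous (fun x : E => (QuotientAddGroup.mk x : E ⧸ H)) :=
        QuotientAddGroup.continuous_mk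
      exact hc)
    (fun h hh => by
      have h1 : (QuotientAddGroup.mk h : E ⧸ H) = 0 := (QuotientAddGroup.eq_zero_iff h).mpr hh
      exact h1)
    U hU (fun g hg' hgU t => by
      have := hg (AddMonoidHom.toMultiplicative.symm g) hg' (fun s => hgU s) t
      exact this)
  have hVH : ∀ v ∈ V, v ∈ H := fun v hv => by
    have h1 : (QuotientAddGroup.mk v : E ⧸ H) = 0 := hV v hv
    exact (QuotientAddGroup.eq_zero_iff v).mp h1
  exact ⟨V, hVcl, hVH, hVsep, fun hfin =>
    hlc (Lib.MP_a1a06b_an.Lines.locallyCompact_of_finiteDimensional H V hVcl hVH hfin)⟩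

end Pool.Agent.Results.MP_a1a06b_an.NoSmallLines
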