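import Pool.Agent.Lib.MP_a1a06b_an.Lines

/-!
# Separable quotient groups of Banach spaces and small one-parameter subgroups
-/

open Topology Metric TopologicalSpace

namespace Pool.Agent.Results.MP_a1a06b_an.SmallLines

universe u

/-- Let `E` be a real Banach space and `H` a subgroup of `(E, +)` with `E ⧸ H` separable. There is a
closed separable linear subspace `E₀` of `E` such that for every `η > 0` every `x ∈ E` is `e + a` with
`e ∈ E₀` and `dist (t a, H) ≤ η` for all real `t`. -/
theorem result (E : Type u) [NormedAddCommGroup E] [NormedSpace ℝ E] [CompleteSpace E]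
    (H : AddSubgroup E) [SeparableSpace (E ⧸ H)] :
    ∃ E₀ : Submodule ℝ E, IsClosed (E₀ : Set E) ∧ IsSeparable (E₀ : Set E) ∧
      ∀ η : ℝ, 0 < η → ∀ x : E, ∃ e ∈ E₀, ∃ a : E, x = e + a ∧
        ∀ t : ℝ, infDist (t • a) (H : Set E) ≤ η := by
  obtain ⟨E₀, hcl, hsep, happ⟩ := Lib.MP_a1a06b_an.Lines.exists_subspace H
  exact ⟨E₀, hcl, hsep, Lib.MP_a1a06b_an.Lines.exact_decomposition H E₀ hcl happ⟩

end Pool.Agent.Results.MP_a1a06b_an.SmallLines
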